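import Pool.Agent.H481.AC11

/-!
# How accurately do the correlations of finite range determine the spacing distribution?

What is known about the zeros `1/2 + i γ` of `ζ` beyond their density are their correlations in a
bounded range of frequencies (Montgomery; Hejhal; Rudnick and Sarnak).  In the unitary model, with
`N` points `z_1, …, z_N` of the unit circle instead of the zeros, the correlations of range `R`
are the means `E[F(z) conj G(z)]` for the polynomials `F`, `G` of total degree at most `R`, and
the prediction is their value for the eigenvalues of a Haar distributed unitary `N × N` matrix.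
The known range is `R = N`; all `R` together give the Gaudin law of the spacings as `N → ∞`.

It is proved that the correlations of range `R = λ N` determine the distribution of the spacings
up to an error of the exact order `1/λ`, uniformly in `N`: let `S_ν(s)` be the mean proportion of
the spacings of `N` random points with the law `ν` which are longer than `s` times the mean spacing,
and `S(s)` the same for the unitary group.  Then for all laws with the correlations of range `R`

* `|S_ν(s) - S(s)| ≤ 16000 e^{4s} N/R` for all `s ≥ 0`;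
* `|S_ν(s) - S(s)| ≤ 16010 (N/R)^{1/5}` for all `s ≥ 0` (uniformly in `s`);

and for all `N ≥ 3` and `R` there is such a law, with simple points, and `0 ≤ s ≤ 2` with

* `|S_ν(s) - S(s)| > N / (16 (N + R))`.

So the Gaudin law cannot be obtained from the correlations of any finite range, and the
correlations of a large but finite range imply it approximately, with a rate which is optimal for
bounded `s`.

Upper bound: by inclusion and exclusion the number of long gaps is an alternating sum of the
products `∏_{i ∈ T} 1_I(z_i / z_j)`, and for `|T| = m` the indicator function of the arc `I` is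
replaced by Selberg's trigonometric majorant and minorant of degree `⌊R/m⌋`.  The error is a sum of
nonnegative trigonometric polynomials of degree at most `R`; its mean is the same for all laws of
the class, and it is bounded for the law `|Δ|²` on the roots of unity by means of the inequality
`E ∏ w(z_k) ≤ (mean of w)^N` (`w ≥ 0`; the inequality of arithmetic and geometric means for the
eigenvalues of a Toeplitz matrix) with a weight `w` which has a spike at one point.
Lower bound: compare the laws `|Δ|²` on the roots of unity of the orders `N + R` and `N + R + 1`.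
-/

open MeasureTheory

namespace Pool.Agent.Results.MP_7b186b_nt.SpacingAccuracy

/-- the mean of `f` over the eigenvalues `z = (e^{iθ_1}, …, e^{iθ_N})` of a Haar distributed
unitary `N × N` matrix (Weyl's formula):
`(N! (2π)^N)⁻¹ ∫_{(0, 2π]^N} f(z) ∏_{i < j} |z_j - z_i|² dθ` -/
noncomputable def haarMean (N : ℕ) (f : (Fin N → ℂ) → ℂ) : ℂ :=
  ((N.factorial : ℂ) * (2 * Real.pi) ^ N)⁻¹ *
    ∫ θ in Set.univ.pi fun _ : Fin N => Set.Ioc (0 : ℝ) (2 * Real.pi),
      f (fun j => Complex.exp (Complex.I * θ j)) *
        ((∏ i : Fin N, ∏ j ∈ Finset.Ioi i,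
          ‖Complex.exp (Complex.I * θ j) - Complex.exp (Complex.I * θ i)‖ ^ 2 : ℝ) : ℂ)

/-- `ν` is a law of `N` points on the unit circle with the correlations of range `R` of the
eigenvalues of a Haar distributed unitary `N × N` matrix: the means `E[F(z) conj G(z)]` are the
same, for all polynomials `F`, `G` of total degree at most `R` -/
structure Agrees (N R : ℕ) (ν : Measure (Fin N → ℂ)) : Prop where
  prob : IsProbabilityMeasure ν
  unit : ∀ᵐ z ∂ν, ∀ i, ‖z i‖ = 1
  moments : ∀ F G : MvPolynomial (Fin N) ℂ, F.totalDegree ≤ R → G.totalDegree ≤ R →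
    ∫ z, MvPolynomial.eval z F * (starRingEnd ℂ) (MvPolynomial.eval z G) ∂ν =
      haarMean N (fun z => MvPolynomial.eval z F * (starRingEnd ℂ) (MvPolynomial.eval z G))

/-- the angle from `1` to `u` counterclockwise, in `(0, 2π]` (for `‖u‖ = 1`) -/
noncomputable def ang (u : ℂ) : ℝ := if 0 < u.arg then u.arg else u.arg + 2 * Real.pi

open Classical in
/-- the number of the gaps longer than `ℓ`: the number of the distinct points `z j` (each one is
counted once, with its least index) for which the angle from `z j` to every point `z i`,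
counterclockwise, is more than `ℓ` (it is `2π` if `z i = z j`) -/
noncomputable def longGaps {N : ℕ} (ℓ : ℝ) (z : Fin N → ℂ) : ℕ :=
  (Finset.univ.filter fun j => (∀ i, i < j → z i ≠ z j) ∧
    ∀ i, ℓ < ang (z i * (starRingEnd ℂ) (z j))).card

/-- the mean proportion of the spacings longer than `s` times the mean spacing `2π / N` -/
noncomputable def share {N : ℕ} (ν : Measure (Fin N → ℂ)) (s : ℝ) : ℝ :=
  (∫ z, (longGaps (2 * Real.pi * s / N) z : ℝ) ∂ν) / N

/-- the same for the unitary group -/
noncomputable def haarShare (N : ℕ) (s : ℝ) : ℂ :=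
  haarMean N (fun z => (longGaps (2 * Real.pi * s / N) z : ℂ)) / N

lemma haarShare_eq (N : ℕ) (s : ℝ) : haarShare N s =
    ((share (Pool.Agent.H481.AC.haarLaw N) s : ℝ) : ℂ) := by
  have h := Pool.Agent.H481.AC.haar_gaps (N := N) (2 * Real.pi * s / N)
  unfold haarShare share
  rw [Complex.ofReal_div, Complex.ofReal_natCast]
  exact congrArg (fun c : ℂ => c / N) h.symm

lemma norm_eq (a b : ℝ) : ‖(a : ℂ) - (b : ℂ)‖ = |a - b| := by
  rw [← Complex.ofReal_sub, Complex.norm_real, Real.norm_eq_abs]

/-- **Theorem.** Let `N, R ≥ 1`. For all laws of `N` points on the circle with the correlations of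
range `R` of the unitary group `U(N)` and all `s ≥ 0`, the mean proportion of the spacings longer
than `s` mean spacings differs from the one of `U(N)` by at most `16000 e^{4s} N/R` and by at most
`16010 (N/R)^{1/5}`.  For all `N ≥ 3` and `R` there are such a law, with almost surely distinct
points, and `0 ≤ s ≤ 2` for which the difference is more than `N / (16 (N + R))`. -/
theorem result :
    (∀ N R : ℕ, 1 ≤ N → 1 ≤ R → ∀ ν : Measure (Fin N → ℂ), Agrees N R ν → ∀ s : ℝ, 0 ≤ s →
      ‖(share ν s : ℂ) - haarShare N s‖ ≤ 16000 * Real.exp (4 * s) * ((N : ℝ) / R) ∧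
      ‖(share ν s : ℂ) - haarShare N s‖ ≤ 16010 * ((N : ℝ) / R) ^ (1 / 5 : ℝ)) ∧
    (∀ N R : ℕ, 3 ≤ N → ∃ ν : Measure (Fin N → ℂ), Agrees N R ν ∧
      (∀ᵐ z ∂ν, Function.Injective z) ∧ ∃ s : ℝ, 0 ≤ s ∧ s ≤ 2 ∧
        (N : ℝ) / (16 * ((N : ℝ) + R)) < ‖(share ν s : ℂ) - haarShare N s‖) := by
  refine ⟨?_, ?_⟩
  · intro N R hN hR ν hν s hs
    rw [haarShare_eq, norm_eq]
    exact ⟨Pool.Agent.H481.AC.upper hN hR hs ν hν.prob hν.unit hν.moments
        (Pool.Agent.H481.AC.haarLaw N) (Pool.Agent.H481.AC.haar_prob hN)
        Pool.Agent.H481.AC.haar_unit (fun F G _ _ => Pool.Agent.H481.AC.haar_mom F G),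
      Pool.Agent.H481.AC.uniform hN hR hs ν hν.prob hν.unit hν.moments
        (Pool.Agent.H481.AC.haarLaw N) (Pool.Agent.H481.AC.haar_prob hN)
        Pool.Agent.H481.AC.haar_unit (fun F G _ _ => Pool.Agent.H481.AC.haar_mom F G)⟩
  · intro N R hN
    have hN0 : (0 : ℝ) < N := by exact_mod_cast (show 0 < N by omega)
    obtain ⟨s, hs0, hs2, hs⟩ := Pool.Agent.H481.AC.two_laws hN (D := N + R) (by omega)
    have ag : ∀ D, N + R ≤ D → Agrees N R (Pool.Agent.H481.SG.glaw N D) := fun D hD =>
      ⟨Pool.Agent.H481.SG.glaw_prob (by omega) (by omega), Pool.Agent.H481.SG.glaw_unit D,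
        fun F G hF hG => Pool.Agent.H481.SG.glaw_mom (by omega) hD F G hF hG⟩
    have inj : ∀ D, ∀ᵐ z ∂(Pool.Agent.H481.SG.glaw N D), Function.Injective z := fun D =>
      Pool.Agent.H481.IN.fl_ae fun k hk => Pool.Agent.H481.AC.inj_of_gw hk
    have e : (N : ℝ) / (16 * ((N : ℝ) + R)) + (N : ℝ) / (16 * ((N : ℝ) + R)) =
        (N : ℝ) / (8 * ((N + R : ℕ) : ℝ)) := by
      push_cast
      field_simp
      norm_num
    rw [← e] at hs
    set a := Pool.Agent.H481.AC.SS N (N + R) s with ha
    set b := Pool.Agent.H481.AC.SS N (N + R + 1) s with hb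
    set c := share (Pool.Agent.H481.AC.haarLaw N) s with hc
    have htri : |a - b| ≤ |a - c| + |b - c| := by
      rw [abs_sub_comm b c]
      exact abs_sub_le a c b
    rcases lt_or_ge ((N : ℝ) / (16 * ((N : ℝ) + R))) |a - c| with h | h
    · refine ⟨_, ag (N + R) le_rfl, inj _, s, hs0, hs2, ?_⟩
      rw [haarShare_eq, norm_eq]
      exact h
    · refine ⟨_, ag (N + R + 1) (by omega), inj _, s, hs0, hs2, ?_⟩
      rw [haarShare_eq, norm_eq]
      have h2 : (N : ℝ) / (16 * ((N : ℝ) + R)) < |b - c| := by linarith
      exact h2

end Pool.Agent.Results.MP_7b186b_nt.SpacingAccuracy
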